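import Pool.Agent.X268.AL.Five

/-!
# Derived invariance of cohomological support loci through the origin: fivefolds

Let `X` and `Y` be derived equivalent smooth projective complex varieties of dimension five, and let
`Irr`, `Rouquier`, `CoversFM` be as in `SupportLoci`: the group `Pic⁰(X)` with the dimensions `h i α`
of `H^i(X, ω_X ⊗ α)`, the restriction `F : G₀ ≃ H₀` of Rouquier's isomorphism to the line bundles
which it sends to line bundles, and the isometries of the Mukai pairings of the cohomologies of the
cyclic étale covers of `X` and `Y` given by a torsion line bundle `α` in `G₀` and by `F α`.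
`ChiConst`: the Euler characteristic of `ω_X ⊗ α` does not depend on `α`.

Theorem.
1. If `χ(ω_X) = χ(ω_Y)`, then `F` restricts to a bijection `V^i(ω_X)_0 ≃ V^i(ω_Y)_0` for all `i`.
2. The same holds if there is an abelian subvariety `B ≠ 0` of `G₀` such that `V^3(ω_X)` does not
   contain `B` and `V^3(ω_Y)` does not contain `F(B)` (`Generic`).

By the generic vanishing theorem of Green and Lazarsfeld, (2) applies to the irregular fivefolds
without vector fields of Albanese dimension at least three, and so the support loci `V^i(ω)_0` of
these are derived invariants for all `i`.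

Idea: by `SupportLoci` only `i = 3` is left.  The numbers `h^{5,i}`, `i ≠ 3`, of the covers `X_α` and
`Y_{F α}` agree by the inertia of the Mukai pairing, and the Euler characteristics are the multiples
of `χ(ω_X) = χ(ω_Y)` by the degree, so the numbers `h^{5,3}` agree as well.  In (2) the equality of
the Euler characteristics follows by comparing `X`, `Y` with the covers given by a generic point of
large prime order.
-/

set_option autoImplicit false

namespace Pool.Agent.Results.MP_abca3a_ag.FivefoldSupportLoci

open Pool.Agent.X268.VL Pool.Agent.X268.AL

theorem result (X Y : Irr) (ρ : Rouquier X Y) (hX : ChiConst X 5) (hY : ChiConst Y 5)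
    (hc : CoversFM ρ 5) :
    (chi X 5 0 = chi Y 5 0 → ∀ i : ℕ, SameLoci ρ i) ∧
    ((∃ B : AddSubgroup X.G, Generic ρ 5 B) → ∀ i : ℕ, SameLoci ρ i) :=
  ⟨fun h i => same_loci (sums_five hX hY hc h i),
    fun ⟨_, hB⟩ i => same_loci (sums_five hX hY hc (chi_eq (by norm_num) hX hY hc hB) i)⟩

end Pool.Agent.Results.MP_abca3a_ag.FivefoldSupportLoci
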