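import Pool.Agent.X268.VL.Main

/-!
# Derived invariance of cohomological support loci through the origin

Let `X` and `Y` be derived equivalent smooth projective complex varieties of dimension `n ≥ 2`.
Rouquier's isomorphism `Aut⁰(X) × Pic⁰(X) ≃ Aut⁰(Y) × Pic⁰(Y)` restricts to an isomorphism `F` of the
algebraic subgroups `G₀ ⊂ Pic⁰(X)` and `H₀ ⊂ Pic⁰(Y)` of the line bundles which it sends to line
bundles, and these contain the loci `V^i(ω_X)_0` and `V^i(ω_Y)_0` (Popa, Schnell; Lombardi).

* `Irr`: the group `G = Pic⁰(X)`, its abelian subvarieties `ab`, and the dimensions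
  `h i α` of `H^i(X, ω_X ⊗ α)`.  The loci `V^i(ω_X) = {α | h i α ≠ 0}` are finite unions of translates
  of abelian subvarieties by torsion points (Green, Lazarsfeld; Simpson).  So `V^i(ω_X)_0`, the union
  of the irreducible components through the origin, is the union `V0 X i` of the abelian
  subvarieties contained in `V^i(ω_X)`.
* `Rouquier`: the isomorphism `F : G₀ ≃ H₀`; it respects abelian subvarieties.
* `CoverOf`: the cohomology of the cyclic étale cover `X_α` of `X` given by a torsion line bundle `α`
  of order `d`; `H^i(X_α, ω)` is the sum of the `H^i(X, ω_X ⊗ α^k)`, `0 ≤ k < d`.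
* `CoversFM`: for a torsion line bundle `α` in `G₀` the covers `X_α` and `Y_{F α}` are derived
  equivalent (Bridgeland, Maciocia; Popa, Schnell), so that their cohomologies are related by an
  isometry of the Mukai pairings (`FM`), and the numbers `h^{1,0}` agree by the theorem of Popa and
  Schnell.
* `CoversCompare`: the Hodge numbers `h^{n,i}` of these covers are computed by the theorems of Kollár
  from the variations of Hodge structure of the fibres of morphisms `X_α → S`, `Y_{F α} → S`, as in
  `MP_b4fe5e_ag.SemiampleCanonicalClass`.  It holds if `K_X` or `-K_X` is semiample and its Iitaka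
  fibration has fibres of dimension at most four: then the same is true for the étale covers.

Theorem.
1. `F` restricts to a bijection `V^i(ω_X)_0 ≃ V^i(ω_Y)_0` for all `i ≤ 2` and all `i ≥ n - 1`.  In
   particular for all `i` if `n ≤ 4`.
2. If `K_X` or `-K_X` is semiample with Iitaka fibres of dimension at most four, in any dimension
   `n`, the same holds for all `i`.

Since `F` is an isomorphism of algebraic groups, `V^i(ω_X)_0 ≃ V^i(ω_Y)_0` as algebraic varieties.

Idea: the Hodge numbers `h^{n,i}` which are known to be derived invariants, by the inertia of the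
Mukai pairing, are the same for `X_α` and `Y_{F α}`, for all torsion line bundles `α` in `G₀`.  For
`α` of prime order `p` in an abelian subvariety `B ⊂ V^i(ω_X)` we find that some multiple `k F(α)`,
`0 < k < p`, belongs to `V^i(ω_Y)`.  If `F(B)` is not contained in `V^i(ω_Y)`, then for large `p` there
is a point of order `p` in `F(B)` outside the finitely many abelian subvarieties of which `V^i(ω_Y)`
consists of translates by torsion points, and this is a contradiction.
-/

set_option autoImplicit false

namespace Pool.Agent.Results.MP_abca3a_ag.SupportLoci

open Pool.Agent.X268.VL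

theorem result (X Y : Irr) (ρ : Rouquier X Y) (n : ℕ) :
    (2 ≤ n → CoversFM ρ n → ∀ i : ℕ, i ≤ 2 ∨ n ≤ i + 1 → SameLoci ρ i) ∧
    (CoversCompare ρ n → ∀ i : ℕ, SameLoci ρ i) :=
  ⟨fun hn h i hi => same_loci (sums_edge hn h i hi), fun h i => same_loci (sums_eq h i)⟩

end Pool.Agent.Results.MP_abca3a_ag.SupportLoci
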